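import Pool.Agent.REV.StmtsV

/-! Squad REV, row FTL: the density of a locally Lipschitz monotone function. -/

set_option autoImplicit false

namespace Pool.Agent.REV.H75

open Set MeasureTheory Filter Pool.Agent.REV
open scoped Topology

theorem ftl_chain {K' : ℝ} {y : ℝ → ℝ} (hK : 0 ≤ K')
    (h : ∀ b b' : ℝ, 0 < b → b ≤ b' → b' ≤ 2 * b →
      y b' - y b ≤ K' * min 1 ((b ^ 3)⁻¹) * (b' - b)) (k : ℕ) :
    ∀ s t : ℝ, 0 < s → s ≤ t → t ≤ 2 ^ k * s → y t - y s ≤ K' * (t - s) := by
  have h1 : ∀ b b' : ℝ, 0 < b → b ≤ b' → b' ≤ 2 * b → y b' - y b ≤ K' * (b' - b) := by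
    intro b b' hb hbb hb2
    refine (h b b' hb hbb hb2).trans ?_
    apply mul_le_mul_of_nonneg_right _ (by linarith)
    calc K' * min 1 ((b ^ 3)⁻¹) ≤ K' * 1 := mul_le_mul_of_nonneg_left (min_le_left _ _) hK
      _ = K' := mul_one _
  induction k with
  | zero =>
    intro s t hs hst ht
    have : t = s := by
      rw [pow_zero, one_mul] at ht
      linarith
    rw [this]
    simp
  | succ k ih =>
    intro s t hs hst ht
    by_cases h2 : t ≤ 2 * s
    · exact h1 s t hs hst h2
    · have h3 := ih (2 * s) t (by linarith) (by linarith) (by rw [pow_succ] at ht; linarith)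
      have h4 := h1 s (2 * s) hs (by linarith) le_rfl
      linarith

theorem ftl : FtlStmt := by
  intro K' y hK hmono h
  have hlip1 : ∀ s t : ℝ, 0 < s → s ≤ t → y t - y s ≤ K' * (t - s) := by
    intro s t hs hst
    obtain ⟨k, hk⟩ := pow_unbounded_of_one_lt (t / s) (one_lt_two (α := ℝ))
    rw [div_lt_iff₀ hs] at hk
    exact ftl_chain hK h k s t hs hst hk.le
  have hlip : LipschitzOnWith (Real.toNNReal K') y (Ioi 0) := by
    apply LipschitzOnWith.of_dist_le_mul
    intro s hs t ht
    rw [Real.coe_toNNReal K' hK, Real.dist_eq, Real.dist_eq]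
    rcases le_total s t with hst | hst
    · have h1 := hlip1 s t hs hst
      have h2 := hmono hs ht hst
      rw [abs_sub_comm (y s), abs_sub_comm s, abs_of_nonneg (by linarith),
        abs_of_nonneg (by linarith)]
      exact h1
    · have h1 := hlip1 t s ht hst
      have h2 := hmono ht hs hst
      rw [abs_of_nonneg (by linarith), abs_of_nonneg (by linarith)]
      exact h1
  refine ⟨hlip.continuousOn, deriv y, measurable_deriv y, ?_, ?_⟩
  · intro b hb
    have hmin : 0 ≤ min 1 ((b ^ 3)⁻¹) := le_min zero_le_one (by positivity)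
    by_cases hd : DifferentiableAt ℝ y b
    · have h1 : HasDerivWithinAt y (deriv y b) (Ioi b) b := hd.hasDerivAt.hasDerivWithinAt
      rw [hasDerivWithinAt_iff_tendsto_slope' (notMem_Ioi.2 le_rfl)] at h1
      have h2 : ∀ᶠ t in 𝓝[>] b, 0 ≤ slope y b t ∧ slope y b t ≤ K' * min 1 ((b ^ 3)⁻¹) := by
        have h3 : Ioo b (2 * b) ∈ 𝓝[>] b := Ioo_mem_nhdsGT (by linarith)
        filter_upwards [h3] with t ht
        have htb : 0 < t - b := by linarith [ht.1]
        have h4 := hmono (show b ∈ Ioi 0 from hb) (show t ∈ Ioi 0 from hb.trans ht.1) ht.1.le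
        have h5 := h b t hb ht.1.le ht.2.le
        rw [slope_def_field]
        constructor
        · exact div_nonneg (by linarith) htb.le
        · rw [div_le_iff₀ htb]
          exact h5
      exact ⟨ge_of_tendsto h1 (h2.mono fun t ht => ht.1), le_of_tendsto h1 (h2.mono fun t ht => ht.2)⟩
    · rw [deriv_zero_of_not_differentiableAt hd]
      exact ⟨le_rfl, mul_nonneg hK hmin⟩
  · intro b b' hb hbb
    have hsub : uIcc b b' ⊆ Ioi 0 := by
      rw [uIcc_of_le hbb]
      intro t ht
      exact lt_of_lt_of_le hb ht.1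
    exact ((hlip.mono hsub).absolutelyContinuousOnInterval.integral_deriv_eq_sub).symm

end Pool.Agent.REV.H75
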